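import Pool.Agent.Q93.SP.Basic

namespace Q93SP

open Finset

lemma geo (x y : ℂ) (h : x - y ≠ 0) (n : ℕ) :
    ∑ i ∈ range n, x ^ i * y ^ (n - 1 - i) = (x ^ n - y ^ n) / (x - y) := by
  rw [eq_div_iff h]
  exact (Commute.all x y).geom_sum₂_mul n

lemma T1_pow (u v w : ℂ) (h1 : u - v ≠ 0) (h2 : u - w ≠ 0) (h3 : v - w ≠ 0) (p q : ℕ) :
    T1 (fun n => u ^ n) (fun n => v ^ n) (fun n => w ^ n) p q =
      (v ^ (q+1) - w ^ (q+1)) / (v - w) *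
        ((v * ((u ^ (p+1) - v ^ (p+1)) / (u - v)) - w * ((u ^ (p+1) - w ^ (p+1)) / (u - w))) / (v - w)) := by
  unfold T1
  have hsub : range (p+1) ⊆ range (p+q+1) := by
    intro x hx; rw [mem_range] at hx ⊢; omega
  rw [← sum_subset hsub (by
    intro x _ hx
    rw [mem_range] at hx
    rw [show p + 1 - x = 0 by omega]; simp)]
  have e : ∀ x ∈ range (p+1), ∑ y ∈ range (q+1), ∑ t ∈ range (p+1-x),
      u ^ x * (v ^ (y+t) * w ^ (p+q-x-(y+t))) =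
      (v ^ (q+1) - w ^ (q+1)) / (v - w) *
        ((v * (u ^ x * v ^ (p + 1 - 1 - x)) - w * (u ^ x * w ^ (p + 1 - 1 - x))) / (v - w)) := by
    intro x hx
    rw [mem_range] at hx
    have e1 := geo v w h3 (p+1-x)
    rw [← geo v w h3 (q+1)]
    have e2 : (v * (u ^ x * v ^ (p + 1 - 1 - x)) - w * (u ^ x * w ^ (p + 1 - 1 - x))) / (v - w) =
        u ^ x * ∑ i ∈ range (p+1-x), v ^ i * w ^ (p+1-x-1-i) := by
      rw [e1]
      rw [show p + 1 - x = (p - x) + 1 by omega, show p + 1 - 1 - x = p - x by omega, pow_succ,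
        pow_succ]
      ring
    rw [e2, sum_mul]
    apply sum_congr rfl
    intro y hy
    rw [mem_range] at hy
    rw [mul_sum, mul_sum]
    apply sum_congr rfl
    intro t ht
    rw [mem_range] at ht
    rw [show p + q - x - (y + t) = (q + 1 - 1 - y) + (p + 1 - x - 1 - t) by omega, pow_add, pow_add]
    ring
  rw [sum_congr rfl e, ← mul_sum, ← sum_div, sum_sub_distrib, ← mul_sum, ← mul_sum, geo u v h1,
    geo u w h2]

lemma T2_pow (u v w : ℂ) (h1 : u - v ≠ 0) (h2 : u - w ≠ 0) (h3 : v - w ≠ 0) (p q : ℕ) :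
    T2 (fun n => u ^ n) (fun n => v ^ n) (fun n => w ^ n) p q =
      (v ^ (p+2) - w ^ (p+2)) / (v - w) *
        ((v * ((u ^ q - v ^ q) / (u - v)) - w * ((u ^ q - w ^ q) / (u - w))) / (v - w)) := by
  unfold T2
  have hsub : range q ⊆ range (p+q+1) := by
    intro x hx; rw [mem_range] at hx ⊢; omega
  rw [← sum_subset hsub (by
    intro x _ hx
    rw [mem_range] at hx
    rw [show q - x = 0 by omega]; simp)]
  have e : ∀ x ∈ range q, ∑ y ∈ range (q-x), ∑ t ∈ range (p+2),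
      u ^ x * (v ^ (y+t) * w ^ (p+q-x-(y+t))) =
      (v ^ (p+2) - w ^ (p+2)) / (v - w) *
        ((v * (u ^ x * v ^ (q - 1 - x)) - w * (u ^ x * w ^ (q - 1 - x))) / (v - w)) := by
    intro x hx
    rw [mem_range] at hx
    have e1 := geo v w h3 (q-x)
    rw [← geo v w h3 (p+2)]
    have e2 : (v * (u ^ x * v ^ (q - 1 - x)) - w * (u ^ x * w ^ (q - 1 - x))) / (v - w) =
        u ^ x * ∑ i ∈ range (q-x), v ^ i * w ^ (q-x-1-i) := by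
      rw [e1]
      rw [show q - x = (q - 1 - x) + 1 by omega, pow_succ, pow_succ]
      ring
    rw [e2, mul_comm, mul_assoc, sum_mul, mul_sum]
    apply sum_congr rfl
    intro y hy
    rw [mem_range] at hy
    rw [mul_sum, mul_sum]
    apply sum_congr rfl
    intro t ht
    rw [mem_range] at ht
    rw [show p + q - x - (y + t) = (q - x - 1 - y) + (p + 2 - 1 - t) by omega, pow_add, pow_add]
    ring
  rw [sum_congr rfl e, ← mul_sum, ← sum_div, sum_sub_distrib, ← mul_sum, ← mul_sum, geo u v h1,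
    geo u w h2]

/-- a `3 × 3` determinant -/
def det3 (f g h : ℂ → ℂ) (u v w : ℂ) : ℂ :=
  f u * (g v * h w - g w * h v) - f v * (g u * h w - g w * h u) + f w * (g u * h v - g v * h u)

lemma S_pow (u v w : ℂ) (h1 : u - v ≠ 0) (h2 : u - w ≠ 0) (h3 : v - w ≠ 0) (p q : ℕ) (hq : q ≤ p) :
    (u - v) * (u - w) * (v - w) * S (fun n => u ^ n) (fun n => v ^ n) (fun n => w ^ n) p q =
      det3 (fun z => z ^ (p+2)) (fun z => z ^ (q+1)) (fun _ => 1) u v w := by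
  rw [S_eq _ _ _ p q hq, T1_pow u v w h1 h2 h3, T2_pow u v w h1 h2 h3]
  unfold det3
  simp only [pow_succ]
  generalize u ^ p = a1
  generalize v ^ p = a2
  generalize w ^ p = a3
  generalize u ^ q = b1
  generalize v ^ q = b2
  generalize w ^ q = b3
  field_simp
  ring

lemma E_eq (u v w : ℂ) (hu : u ≠ 0) (hv : v ≠ 0) (hw : w ≠ 0) (p q : ℕ) :
    (u * v * w) * ((1 - u⁻¹ * v⁻¹) * (1 - u⁻¹ * w⁻¹) * (1 - v⁻¹ * w⁻¹)) *
      det3 (fun z => z ^ (p+2)) (fun z => z ^ (q+1)) (fun _ => 1) u v w =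
    det3 (fun z => z ^ (p+3)) (fun z => z ^ (q+2)) (fun z => z) u v w
    - det3 (fun z => z ^ (p+2)) (fun z => z ^ (q+1)) (fun z => z) u v w
    - det3 (fun z => z ^ (p+2)) (fun z => z ^ (q+2)) (fun _ => 1) u v w
    - det3 (fun z => z ^ (p+3)) (fun z => z ^ (q+1)) (fun _ => 1) u v w
    + det3 (fun z => z ^ (p+1)) (fun z => z ^ (q+1)) (fun _ => 1) u v w
    + det3 (fun z => z ^ (p+2)) (fun z => z ^ q) (fun _ => 1) u v w
    + det3 (fun z => z ^ (p+2)) (fun z => z ^ (q+1)) (fun z => z⁻¹) u v w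
    - det3 (fun z => z ^ (p+1)) (fun z => z ^ q) (fun z => z⁻¹) u v w := by
  unfold det3
  simp only [pow_succ]
  generalize u ^ p = a1
  generalize v ^ p = a2
  generalize w ^ p = a3
  generalize u ^ q = b1
  generalize v ^ q = b2
  generalize w ^ q = b3
  field_simp
  ring

/-- sum over the signs -/
lemma eps (f g h : ℂ → ℂ) (u1 u2 u3 v1 v2 v3 : ℂ) :
    det3 f g h u1 u2 u3 - det3 f g h v1 u2 u3 - det3 f g h u1 v2 u3 - det3 f g h u1 u2 v3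
      + det3 f g h v1 v2 u3 + det3 f g h v1 u2 v3 + det3 f g h u1 v2 v3 - det3 f g h v1 v2 v3 =
    (f u1 - f v1) * ((g u2 - g v2) * (h u3 - h v3) - (g u3 - g v3) * (h u2 - h v2))
      - (f u2 - f v2) * ((g u1 - g v1) * (h u3 - h v3) - (g u3 - g v3) * (h u1 - h v1))
      + (f u3 - f v3) * ((g u1 - g v1) * (h u2 - h v2) - (g u2 - g v2) * (h u1 - h v1)) := by
  unfold det3; ring

lemma S_lin1 (c d : ℂ) (f g F2 F3 : ℕ → ℂ) (p q : ℕ) :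
    S (fun n => c * f n - d * g n) F2 F3 p q = c * S f F2 F3 p q - d * S g F2 F3 p q := by
  unfold S
  rw [mul_sum, mul_sum, ← sum_sub_distrib]
  apply sum_congr rfl; intro x _
  rw [mul_sum, mul_sum, ← sum_sub_distrib]
  apply sum_congr rfl; intro y _
  ring

lemma S_lin2 (c d : ℂ) (f g F1 F3 : ℕ → ℂ) (p q : ℕ) :
    S F1 (fun n => c * f n - d * g n) F3 p q = c * S F1 f F3 p q - d * S F1 g F3 p q := by
  unfold S
  rw [mul_sum, mul_sum, ← sum_sub_distrib]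
  apply sum_congr rfl; intro x _
  rw [mul_sum, mul_sum, ← sum_sub_distrib]
  apply sum_congr rfl; intro y _
  ring

lemma S_lin3 (c d : ℂ) (f g F1 F2 : ℕ → ℂ) (p q : ℕ) :
    S F1 F2 (fun n => c * f n - d * g n) p q = c * S F1 F2 f p q - d * S F1 F2 g p q := by
  unfold S
  rw [mul_sum, mul_sum, ← sum_sub_distrib]
  apply sum_congr rfl; intro x _
  rw [mul_sum, mul_sum, ← sum_sub_distrib]
  apply sum_congr rfl; intro y _
  ring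

/-- `N_m(z) = z^m - z^(-m)` -/
noncomputable def N (z : ℂ) (m : ℕ) : ℂ := z ^ m - z⁻¹ ^ m

/-- `det (N_{l_j}(z_i))` -/
noncomputable def D (z1 z2 z3 : ℂ) (l1 l2 l3 : ℕ) : ℂ :=
  N z1 l1 * (N z2 l2 * N z3 l3 - N z3 l2 * N z2 l3) - N z2 l1 * (N z1 l2 * N z3 l3 - N z3 l2 * N z1 l3)
    + N z3 l1 * (N z1 l2 * N z2 l3 - N z2 l2 * N z1 l3)

/-- `∏_{i<j} (y_i - y_j)`, `y = z + z⁻¹` -/
noncomputable def V (z1 z2 z3 : ℂ) : ℂ :=
  (z1 + z1⁻¹ - (z2 + z2⁻¹)) * (z1 + z1⁻¹ - (z3 + z3⁻¹)) * (z2 + z2⁻¹ - (z3 + z3⁻¹))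

lemma V_fac (u v w : ℂ) (hu : u ≠ 0) (hv : v ≠ 0) (hw : w ≠ 0) :
    V u v w = ((1 - u⁻¹ * v⁻¹) * (1 - u⁻¹ * w⁻¹) * (1 - v⁻¹ * w⁻¹)) *
      ((u - v) * (u - w) * (v - w)) := by
  unfold V; field_simp; ring

/-- one sign choice -/
noncomputable def E (p q : ℕ) (u v w : ℂ) : ℂ :=
    det3 (fun z => z ^ (p+3)) (fun z => z ^ (q+2)) (fun z => z) u v w
    - det3 (fun z => z ^ (p+2)) (fun z => z ^ (q+1)) (fun z => z) u v w
    - det3 (fun z => z ^ (p+2)) (fun z => z ^ (q+2)) (fun _ => 1) u v w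
    - det3 (fun z => z ^ (p+3)) (fun z => z ^ (q+1)) (fun _ => 1) u v w
    + det3 (fun z => z ^ (p+1)) (fun z => z ^ (q+1)) (fun _ => 1) u v w
    + det3 (fun z => z ^ (p+2)) (fun z => z ^ q) (fun _ => 1) u v w
    + det3 (fun z => z ^ (p+2)) (fun z => z ^ (q+1)) (fun z => z⁻¹) u v w
    - det3 (fun z => z ^ (p+1)) (fun z => z ^ q) (fun z => z⁻¹) u v w

lemma term_eq (u v w : ℂ) (hu : u ≠ 0) (hv : v ≠ 0) (hw : w ≠ 0) (hV : V u v w ≠ 0)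
    (p q : ℕ) (hq : q ≤ p) :
    V u v w * ((u * v * w) * S (fun n => u ^ n) (fun n => v ^ n) (fun n => w ^ n) p q) = E p q u v w := by
  have hf := V_fac u v w hu hv hw
  rw [hf] at hV
  have h2 := right_ne_zero_of_mul hV
  have h12 := left_ne_zero_of_mul h2
  have e := S_pow u v w (left_ne_zero_of_mul h12) (right_ne_zero_of_mul h12)
    (right_ne_zero_of_mul h2) p q hq
  unfold E
  rw [← E_eq u v w hu hv hw p q, ← e, hf]
  ring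

lemma V_inv (z1 z2 z3 : ℂ) : V z1⁻¹ z2 z3 = V z1 z2 z3 ∧ V z1 z2⁻¹ z3 = V z1 z2 z3 ∧
    V z1 z2 z3⁻¹ = V z1 z2 z3 := by
  unfold V
  refine ⟨?_, ?_, ?_⟩ <;> (rw [inv_inv]; ring)

theorem main_identity (z1 z2 z3 : ℂ) (h1 : z1 ≠ 0) (h2 : z2 ≠ 0) (h3 : z3 ≠ 0)
    (hV : V z1 z2 z3 ≠ 0) (p q : ℕ) (hq : q ≤ p) :
    V z1 z2 z3 * S (fun n => N z1 (n+1)) (fun n => N z2 (n+1)) (fun n => N z3 (n+1)) p q =
      D z1 z2 z3 (p+3) (q+2) 1 - 2 * D z1 z2 z3 (p+2) (q+1) 1 + D z1 z2 z3 (p+1) q 1 := by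
  have i1 := inv_ne_zero h1
  have i2 := inv_ne_zero h2
  have i3 := inv_ne_zero h3
  have eN : ∀ z : ℂ, (fun n => N z (n+1)) = fun n : ℕ => z * z ^ n - z⁻¹ * z⁻¹ ^ n := by
    intro z; ext n; unfold N; rw [pow_succ, pow_succ]; ring
  rw [eN z1, eN z2, eN z3]
  rw [S_lin1, S_lin2, S_lin2, S_lin3, S_lin3, S_lin3, S_lin3]
  have k : ∀ u v w : ℂ, u ≠ 0 → v ≠ 0 → w ≠ 0 → V u v w = V z1 z2 z3 →
      V z1 z2 z3 * ((u * v * w) * S (fun n => u ^ n) (fun n => v ^ n) (fun n => w ^ n) p q) =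
        E p q u v w := by
    intro u v w hu hv hw hh
    rw [← hh]
    exact term_eq u v w hu hv hw (by rw [hh]; exact hV) p q hq
  have k000 := k z1 z2 z3 h1 h2 h3 rfl
  have k100 := k z1⁻¹ z2 z3 i1 h2 h3 (V_inv z1 z2 z3).1
  have k010 := k z1 z2⁻¹ z3 h1 i2 h3 (V_inv z1 z2 z3).2.1
  have k001 := k z1 z2 z3⁻¹ h1 h2 i3 (V_inv z1 z2 z3).2.2
  have k110 := k z1⁻¹ z2⁻¹ z3 i1 i2 h3 (by rw [(V_inv z1 z2⁻¹ z3).1, (V_inv z1 z2 z3).2.1])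
  have k101 := k z1⁻¹ z2 z3⁻¹ i1 h2 i3 (by rw [(V_inv z1 z2 z3⁻¹).1, (V_inv z1 z2 z3).2.2])
  have k011 := k z1 z2⁻¹ z3⁻¹ h1 i2 i3 (by rw [(V_inv z1 z2 z3⁻¹).2.1, (V_inv z1 z2 z3).2.2])
  have k111 := k z1⁻¹ z2⁻¹ z3⁻¹ i1 i2 i3
    (by rw [(V_inv z1 z2⁻¹ z3⁻¹).1, (V_inv z1 z2 z3⁻¹).2.1, (V_inv z1 z2 z3).2.2])
  have tot : E p q z1 z2 z3 - E p q z1⁻¹ z2 z3 - E p q z1 z2⁻¹ z3 - E p q z1 z2 z3⁻¹
      + E p q z1⁻¹ z2⁻¹ z3 + E p q z1⁻¹ z2 z3⁻¹ + E p q z1 z2⁻¹ z3⁻¹ - E p q z1⁻¹ z2⁻¹ z3⁻¹ =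
      D z1 z2 z3 (p+3) (q+2) 1 - 2 * D z1 z2 z3 (p+2) (q+1) 1 + D z1 z2 z3 (p+1) q 1 := by
    have a1 := eps (fun z => z ^ (p+3)) (fun z => z ^ (q+2)) (fun z => z) z1 z2 z3 z1⁻¹ z2⁻¹ z3⁻¹
    have a2 := eps (fun z => z ^ (p+2)) (fun z => z ^ (q+1)) (fun z => z) z1 z2 z3 z1⁻¹ z2⁻¹ z3⁻¹
    have a3 := eps (fun z => z ^ (p+2)) (fun z => z ^ (q+2)) (fun _ => 1) z1 z2 z3 z1⁻¹ z2⁻¹ z3⁻¹
    have a4 := eps (fun z => z ^ (p+3)) (fun z => z ^ (q+1)) (fun _ => 1) z1 z2 z3 z1⁻¹ z2⁻¹ z3⁻¹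
    have a5 := eps (fun z => z ^ (p+1)) (fun z => z ^ (q+1)) (fun _ => 1) z1 z2 z3 z1⁻¹ z2⁻¹ z3⁻¹
    have a6 := eps (fun z => z ^ (p+2)) (fun z => z ^ q) (fun _ => 1) z1 z2 z3 z1⁻¹ z2⁻¹ z3⁻¹
    have a7 := eps (fun z => z ^ (p+2)) (fun z => z ^ (q+1)) (fun z => z⁻¹) z1 z2 z3 z1⁻¹ z2⁻¹ z3⁻¹
    have a8 := eps (fun z => z ^ (p+1)) (fun z => z ^ q) (fun z => z⁻¹) z1 z2 z3 z1⁻¹ z2⁻¹ z3⁻¹
    simp only [inv_inv] at a7 a8
    unfold E D N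
    simp only [pow_one]
    linear_combination a1 - a2 - a3 - a4 + a5 + a6 + a7 - a8
  rw [← tot, ← k000, ← k100, ← k010, ← k001, ← k110, ← k101, ← k011, ← k111]
  ring

end Q93SP
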