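import Mathlib

namespace Q93SP

open Finset

/-- multiplicity of the weight `(x, y, z)` of the hexagon with parameters `p ≥ q` -/
def K (p q x y z : ℕ) : ℕ :=
  if x + y + z = p + q ∧ x ≤ p ∧ y ≤ p ∧ z ≤ p then
    min (min (min x (p - x)) (min (min y (p - y)) (min z (p - z)))) (min (p - q) q) + 1
  else 0

lemma conv (A B L : ℕ) (G : ℕ → ℂ) (h : A + B ≤ L + 1 ∨ B = 0 ∨ A = 0) :
    ∑ y ∈ range A, ∑ w ∈ range B, G (y + w) =
      ∑ s ∈ range L, ((min (min (s+1) A) (min B (A + B - 1 - s)) : ℕ) : ℂ) * G s := by
  rcases Nat.eq_zero_or_pos B with hB | hB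
  · subst hB; simp
  rcases Nat.eq_zero_or_pos A with hA | hA
  · subst hA; simp
  have h' : A + B ≤ L + 1 := by omega
  clear h hA
  induction A with
  | zero => simp
  | succ A ih =>
    rcases Nat.eq_zero_or_pos A with h0 | h0
    · subst h0
      rw [sum_range_succ, range_zero, sum_empty, zero_add]
      have hsub : range B ⊆ range L := by
        intro x hx; rw [mem_range] at hx ⊢; omega
      rw [← sum_subset hsub]
      · apply sum_congr rfl
        intro s hs
        rw [mem_range] at hs
        rw [show min (min (s+1) (0+1)) (min B (0 + 1 + B - 1 - s)) = 1 by omega]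
        simp
      · intro s _ hs
        rw [mem_range] at hs
        rw [show min (min (s+1) (0+1)) (min B (0 + 1 + B - 1 - s)) = 0 by omega]
        simp
    · rw [sum_range_succ, ih (by omega)]
      have e : ∑ w ∈ range B, G (A + w) = ∑ s ∈ range L, if A ≤ s ∧ s < A + B then G s else 0 := by
        rw [← sum_filter]
        symm
        apply sum_bij' (fun s _ => s - A) (fun w _ => A + w)
        · intro s hs; simp only [mem_filter, mem_range] at hs ⊢; omega
        · intro w hw; simp only [mem_filter, mem_range] at hw ⊢; omega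
        · intro s hs; simp only [mem_filter, mem_range] at hs; omega
        · intro w hw; simp
        · intro s hs
          simp only [mem_filter, mem_range] at hs
          congr 1; omega
      rw [e, ← sum_add_distrib]
      apply sum_congr rfl
      intro s hs
      rw [mem_range] at hs
      split_ifs with hc
      · rw [show min (min (s+1) (A+1)) (min B (A + 1 + B - 1 - s)) =
          min (min (s+1) A) (min B (A + B - 1 - s)) + 1 by omega]
        push_cast; ring
      · rw [show min (min (s+1) (A+1)) (min B (A + 1 + B - 1 - s)) =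
          min (min (s+1) A) (min B (A + B - 1 - s)) by omega]
        ring

/-- the first convolution -/
noncomputable def T1 (F1 F2 F3 : ℕ → ℂ) (p q : ℕ) : ℂ :=
  ∑ x ∈ range (p + q + 1), ∑ y ∈ range (q + 1), ∑ w ∈ range (p + 1 - x),
    F1 x * (F2 (y + w) * F3 (p + q - x - (y + w)))
/-- the second convolution -/
noncomputable def T2 (F1 F2 F3 : ℕ → ℂ) (p q : ℕ) : ℂ :=
  ∑ x ∈ range (p + q + 1), ∑ y ∈ range (q - x), ∑ w ∈ range (p + 2),
    F1 x * (F2 (y + w) * F3 (p + q - x - (y + w)))

/-- the weighted sum over the hexagon -/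
noncomputable def S (F1 F2 F3 : ℕ → ℂ) (p q : ℕ) : ℂ :=
  ∑ x ∈ range (p + q + 1), ∑ s ∈ range (p + q - x + 1),
    (K p q x s (p + q - x - s) : ℂ) * (F1 x * (F2 s * F3 (p + q - x - s)))

lemma key (x y z p q : ℕ) (h : x + y + z = p + q) (hq : q ≤ p) :
    K p q x y z + min (min (y+1) (q-x)) (min (p+2) (z+1)) =
      min (min (y+1) (q+1)) (min (p+1-x) (z+1)) := by
  unfold K
  split_ifs with hc
  · obtain ⟨-, hx, hy, hz⟩ := hc
    rw [min_right_comm]
    by_cases hqx : q ≤ x
    · have e1 : min (min y (p - y)) (min z (p - z)) = min y z := by omega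
      have e2 : min (min x (p - x)) (min (p - q) q) = min (p - x) q := by omega
      rw [e1, e2, show q - x = 0 by omega]
      omega
    · have e1 : min (min y (p - y)) (min z (p - z)) = min (p - y) (p - z) := by omega
      have e2 : min (min x (p - x)) (min (p - q) q) = min x (p - q) := by omega
      obtain ⟨M, hM⟩ : ∃ M, M = min y z := ⟨_, rfl⟩
      have hM1 : q - x ≤ M := by omega
      have e3 : min (p - y) (p - z) = M - (q - x) := by omega
      have e5 : min (y+1) (z+1) = M + 1 := by omega
      have e4 : min (min (y+1) (q-x)) (min (p+2) (z+1)) = q - x := by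
        clear e1 e2 e3; omega
      have e6 : min (min (y+1) (q+1)) (min (p+1-x) (z+1)) =
        min (min (y+1) (z+1)) (min (q+1) (p+1-x)) := by
        rw [min_comm (p+1-x) (z+1), min_assoc, min_assoc]
        congr 1
        rw [← min_assoc, ← min_assoc, min_comm (q+1) (z+1)]
      rw [e1, e2, e3, e4, e6, e5]
      clear e1 e2 e3 e4 e5 e6 hM
      omega
  · by_cases hx : p < x
    · rw [show q - x = 0 by omega, show p + 1 - x = 0 by omega]; omega
    · by_cases hy : p < y
      · have e1 : min (min (y+1) (q-x)) (min (p+2) (z+1)) = z + 1 := by omega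
        have e2 : min (min (y+1) (q+1)) (min (p+1-x) (z+1)) = z + 1 := by omega
        rw [e1, e2]; omega
      · have hz : p < z := by omega
        have e1 : min (min (y+1) (q-x)) (min (p+2) (z+1)) = y + 1 := by omega
        have e2 : min (min (y+1) (q+1)) (min (p+1-x) (z+1)) = y + 1 := by omega
        rw [e1, e2]; omega

lemma S_eq (F1 F2 F3 : ℕ → ℂ) (p q : ℕ) (h : q ≤ p) :
    S F1 F2 F3 p q = T1 F1 F2 F3 p q - T2 F1 F2 F3 p q := by
  unfold S T1 T2
  rw [← sum_sub_distrib]
  apply sum_congr rfl
  intro x hx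
  rw [mem_range] at hx
  rw [conv (q+1) (p+1-x) (p+q-x+1) (fun s => F1 x * (F2 s * F3 (p + q - x - s))) (by omega),
    conv (q-x) (p+2) (p+q-x+1) (fun s => F1 x * (F2 s * F3 (p + q - x - s))) (by omega),
    ← sum_sub_distrib]
  apply sum_congr rfl
  intro s hs
  rw [mem_range] at hs
  rw [← sub_mul]
  congr 1
  have k := key x s (p + q - x - s) p q (by omega) h
  have e1 : min (min (s+1) (q-x)) (min (p+2) (q - x + (p+2) - 1 - s)) =
      min (min (s+1) (q-x)) (min (p+2) (p + q - x - s + 1)) := by
    by_cases hh : q ≤ x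
    · rw [show q - x = 0 by omega]; omega
    · rw [show q - x + (p+2) - 1 - s = p + q - x - s + 1 by omega]
  have e2 : min (min (s+1) (q+1)) (min (p+1-x) (q + 1 + (p+1-x) - 1 - s)) =
      min (min (s+1) (q+1)) (min (p+1-x) (p + q - x - s + 1)) := by
    by_cases hh : p < x
    · rw [show p + 1 - x = 0 by omega]; omega
    · rw [show q + 1 + (p+1-x) - 1 - s = p + q - x - s + 1 by omega]
  rw [e1, e2, ← k]
  push_cast; ring

end Q93SP
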