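import Pool.Agent.Q93.SP.Alg

namespace Q93SP

open Finset

/-- the character of `V_r = Sym^r ℂ²` at `diag(z, z⁻¹)` -/
noncomputable def chi (r : ℕ) (z : ℂ) : ℂ := ∑ j ∈ range (r + 1), z ^ ((r : ℤ) - 2 * (j : ℤ))

/-- The exponents `λ + ρ = (a + b + c + 3, b + c + 2, c + 1)` of `Sp_6` for the highest weight
`a ω₁ + b ω₂ + c ω₃`. -/
def ex (a b c : ℕ) : Fin 3 → ℕ := ![a + b + c + 3, b + c + 2, c + 1]

/-- the numerator `det (z_i ^ l_j - z_i ^ (-l_j))`, `l = λ + ρ`, of Weyl's character formula for `Sp_6` -/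
noncomputable def weylNum (a b c : ℕ) (z : Fin 3 → ℂ) : ℂ :=
  (Matrix.of fun i j : Fin 3 => z i ^ ex a b c j - (z i)⁻¹ ^ ex a b c j).det

/-- The numbers `m(r, s, t)` are the multiplicities of the `π_{r,s,t}` in the restriction of
`Π_{a,b,c}`: the character of `⊕ m(r,s,t) π_{r,s,t}` is equal to the character of `Π_{a,b,c}` given by
Weyl's formula, at all regular elements of the maximal torus. -/
def IsRestriction (a b c : ℕ) (m : ℕ × ℕ × ℕ →₀ ℕ) : Prop :=
  ∀ z : Fin 3 → ℂ, (∀ i, z i ≠ 0) → weylNum 0 0 0 z ≠ 0 →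
    (m.sum fun x k => (k : ℂ) * (chi x.1 (z 0) * (chi x.2.1 (z 1) * chi x.2.2 (z 2)))) =
      weylNum a b c z / weylNum 0 0 0 z

/-- The function `μ_{a,b}` of the problem. -/
def mu (a b : ℕ) (x : ℕ × ℕ × ℕ) : ℕ :=
  ∑ k ∈ range (b + 1),
    if x.1 + x.2.1 + x.2.2 = a + 2 * b - 2 * k ∧ x.1 ≤ a + b - k ∧ x.2.1 ≤ a + b - k ∧
      x.2.2 ≤ a + b - k then
      (k + 1) * (min (min (min x.1 (a + b - k - x.1)) (min (min x.2.1 (a + b - k - x.2.1))
        (min x.2.2 (a + b - k - x.2.2)))) (min a (b - k)) + 1)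
    else 0

lemma mu_eq (a b : ℕ) (x y z : ℕ) :
    mu a b (x, y, z) = ∑ k ∈ range (b + 1), (k + 1) * K (a + b - k) (b - k) x y z := by
  unfold mu K
  apply sum_congr rfl
  intro k hk
  rw [mem_range] at hk
  rw [show a + b - k + (b - k) = a + 2 * b - 2 * k by omega, show a + b - k - (b - k) = a by omega]
  split_ifs <;> simp

lemma sum_box (P n : ℕ) (hP : n < P) (g : ℕ → ℕ → ℕ → ℂ) (hg : ∀ x y z, x + y + z ≠ n → g x y z = 0) :
    ∑ x ∈ range P ×ˢ (range P ×ˢ range P), g x.1 x.2.1 x.2.2 =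
      ∑ x ∈ range (n+1), ∑ s ∈ range (n-x+1), g x s (n-x-s) := by
  rw [sum_product]
  have hs : range (n+1) ⊆ range P := by intro x hx; rw [mem_range] at hx ⊢; omega
  rw [← sum_subset hs]
  · apply sum_congr rfl
    intro x hx
    rw [mem_range] at hx
    rw [sum_product]
    have hs2 : range (n-x+1) ⊆ range P := by intro x hx; rw [mem_range] at hx ⊢; omega
    rw [← sum_subset hs2]
    · apply sum_congr rfl
      intro s hs
      rw [mem_range] at hs
      rw [sum_eq_single (n-x-s)]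
      · intro z _ hz
        apply hg; simp only; omega
      · intro hh; exfalso; apply hh; rw [mem_range]; omega
    · intro y _ hy
      rw [mem_range] at hy
      apply sum_eq_zero
      intro z _
      apply hg; simp only; omega
  · intro x _ hx
    rw [mem_range] at hx
    apply sum_eq_zero
    intro y _
    apply hg; omega

lemma N_chi (r : ℕ) (z : ℂ) (hz : z ≠ 0) : N z (r+1) = N z 1 * chi r z := by
  have h := (Commute.all z⁻¹ z).geom_sum₂_mul (r+1)
  have e : chi r z = ∑ i ∈ range (r+1), z⁻¹ ^ i * z ^ (r + 1 - 1 - i) := by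
    unfold chi
    apply sum_congr rfl
    intro i hi
    rw [mem_range] at hi
    rw [inv_pow, ← zpow_natCast, ← zpow_natCast, ← zpow_neg, ← zpow_add₀ hz]
    congr 1
    rw [Nat.cast_sub (by omega)]; push_cast; ring
  unfold N
  rw [e, pow_one, pow_one]
  linear_combination h

lemma N_zero (z : ℂ) : N z 0 = 0 := by simp [N]

lemma weylNum_eq (a b c : ℕ) (z : Fin 3 → ℂ) :
    weylNum a b c z = D (z 0) (z 1) (z 2) (a+b+c+3) (b+c+2) (c+1) := by
  unfold weylNum D N ex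
  rw [Matrix.det_fin_three]
  simp only [Matrix.of_apply, Matrix.cons_val_zero, Matrix.cons_val_one, Matrix.cons_val]
  ring

lemma weylDen_eq (z : Fin 3 → ℂ) (h0 : z 0 ≠ 0) (h1 : z 1 ≠ 0) (h2 : z 2 ≠ 0) :
    weylNum 0 0 0 z = (N (z 0) 1 * (N (z 1) 1 * N (z 2) 1)) * V (z 0) (z 1) (z 2) := by
  rw [weylNum_eq]
  generalize z 0 = u at *
  generalize z 1 = v at *
  generalize z 2 = w at *
  unfold D N V
  simp only [zero_add, pow_one, inv_pow]
  field_simp
  ring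

lemma tele (f : ℕ → ℂ) (n : ℕ) :
    ∑ k ∈ range n, ((k:ℂ) + 1) * (f k - 2 * f (k+1) + f (k+2)) = f 0 - (n + 1) * f n + n * f (n+1) := by
  induction n with
  | zero => simp
  | succ n ih => rw [sum_range_succ, ih]; push_cast; ring

lemma total (a b : ℕ) (z : Fin 3 → ℂ) (h0 : z 0 ≠ 0) (h1 : z 1 ≠ 0) (h2 : z 2 ≠ 0)
    (hV : V (z 0) (z 1) (z 2) ≠ 0) :
    V (z 0) (z 1) (z 2) * ∑ k ∈ range (b+1), ((k:ℂ) + 1) *
      S (fun n => N (z 0) (n+1)) (fun n => N (z 1) (n+1)) (fun n => N (z 2) (n+1)) (a+b-k) (b-k) =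
    weylNum a b 0 z := by
  rw [weylNum_eq, mul_sum]
  have e : ∀ k ∈ range (b+1), V (z 0) (z 1) (z 2) * (((k:ℂ) + 1) *
      S (fun n => N (z 0) (n+1)) (fun n => N (z 1) (n+1)) (fun n => N (z 2) (n+1)) (a+b-k) (b-k)) =
      ((k:ℂ) + 1) * ((fun j => D (z 0) (z 1) (z 2) (a+b+3-j) (b+2-j) 1) k
        - 2 * (fun j => D (z 0) (z 1) (z 2) (a+b+3-j) (b+2-j) 1) (k+1)
        + (fun j => D (z 0) (z 1) (z 2) (a+b+3-j) (b+2-j) 1) (k+2)) := by
    intro k hk
    rw [mem_range] at hk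
    have m := main_identity (z 0) (z 1) (z 2) h0 h1 h2 hV (a+b-k) (b-k) (by omega)
    dsimp only
    rw [show a + b + 3 - k = a + b - k + 3 by omega, show b + 2 - k = b - k + 2 by omega,
      show a + b + 3 - (k+1) = a + b - k + 2 by omega, show b + 2 - (k+1) = b - k + 1 by omega,
      show a + b + 3 - (k+2) = a + b - k + 1 by omega, show b + 2 - (k+2) = b - k by omega, ← m]
    ring
  rw [sum_congr rfl e, tele]
  rw [show b + 2 - (b+1) = 1 by omega, show b + 2 - (b+1+1) = 0 by omega]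
  have z1 : D (z 0) (z 1) (z 2) (a+b+3-(b+1)) 1 1 = 0 := by unfold D; ring
  have z2 : D (z 0) (z 1) (z 2) (a+b+3-(b+1+1)) 0 1 = 0 := by
    unfold D; rw [N_zero, N_zero, N_zero]; ring
  rw [z1, z2]
  simp

/-- the multiplicities as a finitely supported function -/
noncomputable def muF (a b : ℕ) : ℕ × ℕ × ℕ →₀ ℕ :=
  Finsupp.onFinset (range (a+2*b+1) ×ˢ (range (a+2*b+1) ×ˢ range (a+2*b+1))) (mu a b) (by
    rintro ⟨x, y, z⟩ h
    unfold mu at h
    obtain ⟨k, hk, hk2⟩ := exists_ne_zero_of_sum_ne_zero h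
    split_ifs at hk2 with hc
    · simp only [mem_product, mem_range] at hk hc ⊢
      omega
    · exact absurd rfl hk2)

theorem exists_part (a b : ℕ) : IsRestriction a b 0 (muF a b) := by
  intro z hz hden
  have h0 := hz 0
  have h1 := hz 1
  have h2 := hz 2
  have hd := weylDen_eq z h0 h1 h2
  rw [hd] at hden
  have hV := right_ne_zero_of_mul hden
  rw [eq_div_iff (by rw [hd]; exact hden), hd, ← total a b z h0 h1 h2 hV]
  unfold muF
  rw [Finsupp.onFinset_sum _ (by intro x; simp)]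
  rw [show ∀ s : ℂ, s * (N (z 0) 1 * (N (z 1) 1 * N (z 2) 1) * V (z 0) (z 1) (z 2)) =
    V (z 0) (z 1) (z 2) * (s * (N (z 0) 1 * (N (z 1) 1 * N (z 2) 1))) by intro s; ring]
  congr 1
  rw [sum_mul]
  have e : ∀ x ∈ range (a+2*b+1) ×ˢ (range (a+2*b+1) ×ˢ range (a+2*b+1)),
      (mu a b x : ℂ) * (chi x.1 (z 0) * (chi x.2.1 (z 1) * chi x.2.2 (z 2))) *
        (N (z 0) 1 * (N (z 1) 1 * N (z 2) 1)) =
      ∑ k ∈ range (b+1), ((k:ℂ) + 1) * ((K (a+b-k) (b-k) x.1 x.2.1 x.2.2 : ℂ) *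
        (N (z 0) (x.1+1) * (N (z 1) (x.2.1+1) * N (z 2) (x.2.2+1)))) := by
    rintro ⟨x, y, t⟩ _
    rw [mu_eq]
    dsimp only
    rw [N_chi x _ h0, N_chi y _ h1, N_chi t _ h2]
    push_cast
    rw [sum_mul, sum_mul]
    apply sum_congr rfl
    intro k _
    ring
  rw [sum_congr rfl e, sum_comm]
  apply sum_congr rfl
  intro k hk
  rw [mem_range] at hk
  rw [← mul_sum]
  congr 1
  unfold S
  exact sum_box (a+2*b+1) (a+b-k+(b-k)) (by omega)
    (fun x y t => (K (a+b-k) (b-k) x y t : ℂ) * (N (z 0) (x+1) * (N (z 1) (y+1) * N (z 2) (t+1))))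
    (by intro x y t hne; unfold K; rw [if_neg (by tauto)]; simp)

/-! ### uniqueness -/

lemma LI (P : ℕ) (c : ℕ → ℂ) (F : Finset ℝ)
    (h : ∀ t : ℝ, 1 < t → t ∉ F → ∑ n ∈ range P, c n * N (t:ℂ) (n+1) = 0) : ∀ n < P, c n = 0 := by
  intro n hn
  set Q : Polynomial ℂ := ∑ n ∈ range P, Polynomial.C (c n) *
    (Polynomial.X ^ (P + n + 1) - Polynomial.X ^ (P - n - 1)) with hQ
  have hQ0 : Q = 0 := by
    apply Polynomial.eq_zero_of_infinite_isRoot
    have hinf : ((fun t : ℝ => (t:ℂ)) '' (Set.Ioi (1:ℝ) \ (F : Set ℝ))).Infinite := by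
      apply Set.Infinite.image
      · intro x _ y _ hxy; simpa using hxy
      · exact (Set.Ioi_infinite (1:ℝ)).sdiff F.finite_toSet
    apply hinf.mono
    rintro _ ⟨t, ⟨ht1, ht2⟩, rfl⟩
    have hz : (t:ℂ) ≠ 0 := by
      have : (0:ℝ) < t := lt_trans one_pos ht1
      simpa using this.ne'
    have := h t ht1 (by simpa using ht2)
    change Q.eval (t:ℂ) = 0
    rw [hQ, Polynomial.eval_finsetSum]
    have e : ∀ n ∈ range P, Polynomial.eval (t:ℂ) (Polynomial.C (c n) *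
        (Polynomial.X ^ (P + n + 1) - Polynomial.X ^ (P - n - 1))) =
        (t:ℂ) ^ P * (c n * N (t:ℂ) (n+1)) := by
      intro n hn
      rw [mem_range] at hn
      simp only [Polynomial.eval_mul, Polynomial.eval_C, Polynomial.eval_sub, Polynomial.eval_pow,
        Polynomial.eval_X]
      unfold N
      have e1 : (t:ℂ) ^ P * (t:ℂ)⁻¹ ^ (n+1) = (t:ℂ) ^ (P - n - 1) := by
        rw [inv_pow, ← div_eq_mul_inv, div_eq_iff (pow_ne_zero _ hz), ← pow_add]
        congr 1; omega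
      rw [← e1, show P + n + 1 = P + (n + 1) by omega, pow_add]
      ring
    rw [sum_congr rfl e, ← mul_sum, this, mul_zero]
  have hc := congrArg (fun q => Polynomial.coeff q (P + n + 1)) hQ0
  simp only [hQ, Polynomial.finsetSum_coeff, Polynomial.coeff_zero, Polynomial.coeff_C_mul,
    Polynomial.coeff_sub, Polynomial.coeff_X_pow] at hc
  rw [sum_eq_single n] at hc
  · rw [if_pos rfl, if_neg (by omega)] at hc
    simpa using hc
  · intro j hj hjn
    rw [if_neg (by omega), if_neg (by omega)]; simp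
  · intro hh; exfalso; apply hh; rw [mem_range]; exact hn

lemma reg (s t : ℝ) (hs : 1 < s) (ht : 1 < t) (h : s ≠ t) :
    ((s:ℂ) + (s:ℂ)⁻¹ - ((t:ℂ) + (t:ℂ)⁻¹)) ≠ 0 := by
  have h1 : s + s⁻¹ - (t + t⁻¹) = (s - t) * (1 - (s * t)⁻¹) := by
    have : s ≠ 0 := by linarith
    have : t ≠ 0 := by linarith
    field_simp; ring
  have h2 : s + s⁻¹ - (t + t⁻¹) ≠ 0 := by
    rw [h1]
    apply mul_ne_zero (sub_ne_zero.mpr h)
    have : 1 < s * t := by nlinarith
    have := inv_lt_one_of_one_lt₀ this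
    linarith
  have h3 : ((s:ℂ) + (s:ℂ)⁻¹ - ((t:ℂ) + (t:ℂ)⁻¹)) = ((s + s⁻¹ - (t + t⁻¹) : ℝ) : ℂ) := by push_cast; rfl
  rw [h3]
  exact_mod_cast h2

lemma N1_ne (t : ℝ) (ht : 1 < t) : N (t:ℂ) 1 ≠ 0 := by
  unfold N
  rw [pow_one, pow_one]
  have h1 : t⁻¹ < 1 := inv_lt_one_of_one_lt₀ ht
  have h2 : t - t⁻¹ ≠ 0 := by linarith
  have : (t:ℂ) - (t:ℂ)⁻¹ = ((t - t⁻¹ : ℝ) : ℂ) := by push_cast; rfl
  rw [this]; exact_mod_cast h2

theorem unique_part (a b c : ℕ) (m m' : ℕ × ℕ × ℕ →₀ ℕ) (h : IsRestriction a b c m)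
    (h' : IsRestriction a b c m') : m = m' := by
  -- a box containing both supports
  obtain ⟨P, hP⟩ : ∃ P : ℕ, m.support ∪ m'.support ⊆ range P ×ˢ (range P ×ˢ range P) := by
    refine ⟨(m.support ∪ m'.support).sup (fun x => x.1 + x.2.1 + x.2.2) + 1, ?_⟩
    intro x hx
    have := Finset.le_sup (f := fun x : ℕ × ℕ × ℕ => x.1 + x.2.1 + x.2.2) hx
    simp only [mem_product, mem_range]
    omega
  have hm : m.support ⊆ range P ×ˢ (range P ×ˢ range P) := subset_union_left.trans hP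
  have hm' : m'.support ⊆ range P ×ˢ (range P ×ˢ range P) := subset_union_right.trans hP
  have key : ∀ t1 t2 t3 : ℝ, 1 < t1 → 1 < t2 → 1 < t3 → t1 ≠ t2 → t1 ≠ t3 → t2 ≠ t3 →
      ∑ x ∈ range P, (∑ y ∈ range P, (∑ t ∈ range P, ((m (x,y,t) : ℂ) - m' (x,y,t)) *
        N (t3:ℂ) (t+1)) * N (t2:ℂ) (y+1)) * N (t1:ℂ) (x+1) = 0 := by
    intro t1 t2 t3 g1 g2 g3 n12 n13 n23
    set z : Fin 3 → ℂ := ![(t1:ℂ), (t2:ℂ), (t3:ℂ)] with hz
    have z0 : z 0 = t1 := rfl
    have z1 : z 1 = t2 := rfl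
    have z2 : z 2 = t3 := rfl
    have c0 : z 0 ≠ 0 := by rw [z0]; have : t1 ≠ 0 := by linarith
                            exact_mod_cast this
    have c1 : z 1 ≠ 0 := by rw [z1]; have : t2 ≠ 0 := by linarith
                            exact_mod_cast this
    have c2 : z 2 ≠ 0 := by rw [z2]; have : t3 ≠ 0 := by linarith
                            exact_mod_cast this
    have hne : ∀ i, z i ≠ 0 := by
      intro i; fin_cases i
      · exact c0
      · exact c1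
      · exact c2
    have hden : weylNum 0 0 0 z ≠ 0 := by
      rw [weylDen_eq z c0 c1 c2, z0, z1, z2]
      apply mul_ne_zero (mul_ne_zero (N1_ne t1 g1) (mul_ne_zero (N1_ne t2 g2) (N1_ne t3 g3)))
      unfold V
      exact mul_ne_zero (mul_ne_zero (reg t1 t2 g1 g2 n12) (reg t1 t3 g1 g3 n13)) (reg t2 t3 g2 g3 n23)
    have e1 := (h z hne hden).trans (h' z hne hden).symm
    rw [Finsupp.sum_of_support_subset m hm _ (by simp),
      Finsupp.sum_of_support_subset m' hm' _ (by simp), ← sub_eq_zero, ← sum_sub_distrib,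
      sum_product] at e1
    have e2 : ∑ x ∈ range P, (∑ y ∈ range P, (∑ t ∈ range P, ((m (x,y,t) : ℂ) - m' (x,y,t)) *
        N (t3:ℂ) (t+1)) * N (t2:ℂ) (y+1)) * N (t1:ℂ) (x+1) =
        (∑ x ∈ range P, ∑ y ∈ range P ×ˢ range P,
          ((m (x, y) : ℂ) * (chi x (z 0) * (chi y.1 (z 1) * chi y.2 (z 2))) -
          (m' (x, y) : ℂ) * (chi x (z 0) * (chi y.1 (z 1) * chi y.2 (z 2))))) *
          (N (t1:ℂ) 1 * (N (t2:ℂ) 1 * N (t3:ℂ) 1)) := by
      rw [sum_mul]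
      apply sum_congr rfl
      intro x _
      rw [sum_product, sum_mul, sum_mul]
      apply sum_congr rfl
      intro y _
      rw [sum_mul, sum_mul, sum_mul]
      apply sum_congr rfl
      intro t _
      rw [z0, z1, z2, N_chi x (t1:ℂ) (z0 ▸ c0), N_chi y (t2:ℂ) (z1 ▸ c1), N_chi t (t3:ℂ) (z2 ▸ c2)]
      ring
    rw [e2, e1, zero_mul]
  have s1 : ∀ x < P, ∀ t2 t3 : ℝ, 1 < t2 → 1 < t3 → t2 ≠ t3 →
      ∑ y ∈ range P, (∑ t ∈ range P, ((m (x,y,t) : ℂ) - m' (x,y,t)) *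
        N (t3:ℂ) (t+1)) * N (t2:ℂ) (y+1) = 0 := by
    intro x hx t2 t3 g2 g3 n23
    exact LI P (fun x => ∑ y ∈ range P, (∑ t ∈ range P, ((m (x,y,t) : ℂ) - m' (x,y,t)) *
        N (t3:ℂ) (t+1)) * N (t2:ℂ) (y+1)) {t2, t3} (by
      intro t ht htF
      simp only [mem_insert, mem_singleton, not_or] at htF
      exact key t t2 t3 ht g2 g3 htF.1 htF.2 n23) x hx
  have s2 : ∀ x < P, ∀ y < P, ∀ t3 : ℝ, 1 < t3 →
      ∑ t ∈ range P, ((m (x,y,t) : ℂ) - m' (x,y,t)) * N (t3:ℂ) (t+1) = 0 := by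
    intro x hx y hy t3 g3
    exact LI P (fun y => ∑ t ∈ range P, ((m (x,y,t) : ℂ) - m' (x,y,t)) *
        N (t3:ℂ) (t+1)) {t3} (by
      intro t ht htF
      simp only [mem_singleton] at htF
      exact s1 x hx t t3 ht g3 htF) y hy
  ext ⟨x, y, t⟩
  by_cases hin : (x, y, t) ∈ range P ×ˢ (range P ×ˢ range P)
  · simp only [mem_product, mem_range] at hin
    have := LI P (fun t => (m (x,y,t) : ℂ) - m' (x,y,t)) ∅ (by
      intro s hs _
      exact s2 x hin.1 y hin.2.1 s hs) t hin.2.2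
    have h3 := sub_eq_zero.mp this
    exact_mod_cast h3
  · have a1 : m (x,y,t) = 0 := by
      by_contra hh; exact hin (hm (Finsupp.mem_support_iff.mpr hh))
    have a2 : m' (x,y,t) = 0 := by
      by_contra hh; exact hin (hm' (Finsupp.mem_support_iff.mpr hh))
    rw [a1, a2]

theorem main (a b : ℕ) (m : ℕ × ℕ × ℕ →₀ ℕ) :
    IsRestriction a b 0 m ↔ ∀ x, m x = mu a b x := by
  constructor
  · intro h x
    rw [unique_part a b 0 m _ h (exists_part a b)]; rfl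
  · intro h
    have : m = muF a b := by ext x; rw [h x]; rfl
    rw [this]; exact exists_part a b

theorem main_exists (a b : ℕ) : ∃ m, IsRestriction a b 0 m := ⟨_, exists_part a b⟩

end Q93SP
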